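import Pool.Agent.Helper24.WS.AH
import Pool.Agent.Helper80.WS.PsiSplit

/-!
WS-6a. The wild exponential sum modulo `γ ^ M` as the sum of the values of the splitting product.
-/

open MvPolynomial Finset

namespace Pool.Agent.Helper9.WS

private theorem prod_congr63 {L Γ : Type*} [Field L] [LinearOrderedCommGroupWithZero Γ]
    (v : Valuation L Γ) {ι : Type*} (s : Finset ι) (a b : ι → L) {g : Γ} (hg : g ≤ 1)
    (hb : ∀ i ∈ s, v (b i) ≤ 1) (hab : ∀ i ∈ s, v (a i - b i) ≤ g) :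
    v (∏ i ∈ s, a i - ∏ i ∈ s, b i) ≤ g := by
  classical
  induction s using Finset.induction_on with
  | empty => simp
  | insert i s hi ih =>
    rw [prod_insert hi, prod_insert hi]
    have h1 := ih (fun j hj => hb j (mem_insert_of_mem hj)) (fun j hj => hab j (mem_insert_of_mem hj))
    have h2 := hab i (mem_insert_self i s)
    have h3 := hb i (mem_insert_self i s)
    have h4 : v (∏ i ∈ s, b i) ≤ 1 := by
      rw [map_prod]
      exact prod_le_one' fun j hj => hb j (mem_insert_of_mem hj)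
    have h5 : v (∏ i ∈ s, a i) ≤ 1 := by
      have : ∏ i ∈ s, a i = (∏ i ∈ s, a i - ∏ i ∈ s, b i) + ∏ i ∈ s, b i := by ring
      rw [this]
      exact (v.map_add _ _).trans (max_le (h1.trans hg) h4)
    have h6 : a i * ∏ i ∈ s, a i - b i * ∏ i ∈ s, b i =
        (a i - b i) * ∏ i ∈ s, a i + b i * (∏ i ∈ s, a i - ∏ i ∈ s, b i) := by ring
    rw [h6]
    refine (v.map_add _ _).trans (max_le ?_ ?_)
    · rw [map_mul]
      exact (mul_le_mul' h2 h5).trans_eq (mul_one g)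
    · rw [map_mul]
      exact (mul_le_mul' h3 h1).trans_eq (one_mul g)

private theorem addChar_sum63 {A R ι : Type*} [AddCommMonoid A] [CommMonoid R] (ψ : AddChar A R)
    (s : Finset ι) (f : ι → A) : ψ (∑ i ∈ s, f i) = ∏ i ∈ s, ψ (f i) := by
  classical
  induction s using Finset.induction_on with
  | empty => simp
  | insert i s hi ih => rw [sum_insert hi, prod_insert hi, AddChar.map_add_eq_mul, ih]

section

variable {p : ℕ} [Fact p.Prime] {κ L : Type} [Field κ] [CharP κ p] [Field L] [CharZero L]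
  (Φ : Frame p κ L) {n : ℕ} {k : Type} [Field k] [Algebra k κ]

private theorem v_ev63 (hah : ∀ j, Φ.v ((ah p j : ℚ) : L) ≤ 1) (M : ℕ) {x : L} (hx : Φ.v x ≤ 1) :
    Φ.v (ev p M x) ≤ 1 := by
  unfold ev
  refine Valuation.map_sum_le _ fun j _ => ?_
  rw [map_mul, map_pow]
  exact mul_le_one' (hah j) (pow_le_one' hx j)

private theorem eval_prd63 (M : ℕ) (γ : L) {K : Type} [Field K] [Algebra k K] (ι : K →ₐ[k] κ)
    (r : ℕ) (f : MvPolynomial (Fin n) k) (x : Fin n → K) :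
    eval (fun j => Φ.T (ι (x j))) (prd Φ M γ f r) = ∏ e ∈ f.support, ∏ i ∈ range r,
      ev p M (γ * Φ.T (ι (algebraMap k K (f.coeff e) * ∏ j, x j ^ e j)) ^ p ^ i) := by
  unfold prd
  rw [map_prod, prod_comm]
  refine prod_congr rfl fun i _ => ?_
  rw [eval_expand]
  unfold fac
  rw [map_prod]
  refine prod_congr rfl fun e _ => ?_
  rw [map_sum]
  unfold ev
  refine sum_congr rfl fun j _ => ?_
  rw [eval_monomial, Finsupp.prod_fintype _ _ (fun l => pow_zero _), map_mul ι, AlgHom.commutes,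
    map_prod ι, map_mul Φ.T, map_prod Φ.T, mul_assoc]
  congr 1
  conv_rhs => rw [mul_pow (Φ.T (algebraMap k κ (f.coeff e))), ← mul_assoc, mul_pow]
  congr 1
  rw [← prod_pow, ← prod_pow]
  refine prod_congr rfl fun l _ => ?_
  rw [map_pow ι, map_pow Φ.T, Finsupp.smul_apply, smul_eq_mul, Pi.pow_apply]
  rw [← pow_mul, ← pow_mul, ← pow_mul]
  congr 1
  ring

/-- WS-6a from WS-1 (`hah`) and WS-5 (`hsplit`) -/
theorem wildSum_eval_of (hah : ∀ j, Φ.v ((ah p j : ℚ) : L) ≤ 1) (M : ℕ) {γ : L}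
    (hγ : Φ.v γ ≤ 1)
    (ψ : AddChar (ZMod p) L) (c : Fin n → ℕ) {K : Type} [Field K] [Fintype K]
    [Algebra k K] [Algebra (ZMod p) K] (ι : K →ₐ[k] κ) {r : ℕ}
    (hsplit : ∀ x : K, Φ.v (ψ (Algebra.trace (ZMod p) K x) -
      ∏ i ∈ range r, ev p M (γ * Φ.T (ι x) ^ p ^ i)) ≤ Φ.v γ ^ M)
    (f : MvPolynomial (Fin n) k) :
    Φ.v (wildSum Φ ψ c K ι f - ∑ x : Fin n → K,
      (∏ j, Φ.T (ι (x j)) ^ (c j * ((Fintype.card K - 1) / (p - 1)))) *
        eval (fun j => Φ.T (ι (x j))) (prd Φ M γ f r)) ≤ Φ.v γ ^ M := by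
  unfold wildSum
  rw [← sum_sub_distrib]
  refine Valuation.map_sum_le _ fun x _ => ?_
  rw [← mul_sub, map_mul]
  have h1 : Φ.v (∏ j, Φ.T (ι (x j)) ^ (c j * ((Fintype.card K - 1) / (p - 1)))) ≤ 1 := by
    rw [map_prod]
    exact prod_le_one' fun j _ => by
      rw [map_pow]
      exact pow_le_one' (Φ.T_le _) _
  refine (mul_le_mul' h1 ?_).trans_eq (one_mul _)
  rw [eval_prd63]
  have h2 : ψ (Algebra.trace (ZMod p) K (aeval x f)) =
      ∏ e ∈ f.support, ψ (Algebra.trace (ZMod p) K (algebraMap k K (f.coeff e) * ∏ j, x j ^ e j)) := by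
    have e1 : aeval x f = ∑ e ∈ f.support, algebraMap k K (f.coeff e) * ∏ j, x j ^ e j := by
      rw [MvPolynomial.aeval_def, MvPolynomial.eval₂_eq']
    rw [e1, map_sum]
    exact addChar_sum63 _ _ _
  rw [h2]
  refine prod_congr63 Φ.v _ _ _ (pow_le_one' hγ M) (fun e _ => ?_) (fun e _ => hsplit _)
  rw [map_prod]
  refine prod_le_one' fun i _ => v_ev63 Φ hah M ?_
  rw [map_mul, map_pow]
  exact mul_le_one' hγ (pow_le_one' (Φ.T_le _) _)

/-- WS-6a -/
theorem wildSum_eval (M : ℕ) {γ : L} (hγ : Φ.v γ ≤ 1) (hγp : Φ.v (p : L) ≤ Φ.v γ)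
    (ψ : AddChar (ZMod p) L) (hψ : ev p M γ = ψ 1) (c : Fin n → ℕ) {K : Type} [Field K] [Fintype K]
    [Algebra k K] [Algebra (ZMod p) K] (ι : K →ₐ[k] κ) {r : ℕ} (hr : Fintype.card K = p ^ r)
    (f : MvPolynomial (Fin n) k) :
    Φ.v (wildSum Φ ψ c K ι f - ∑ x : Fin n → K,
      (∏ j, Φ.T (ι (x j)) ^ (c j * ((Fintype.card K - 1) / (p - 1)))) *
        eval (fun j => Φ.T (ι (x j))) (prd Φ M γ f r)) ≤ Φ.v γ ^ M :=
  wildSum_eval_of Φ (v_ah Φ) M hγ ψ c ι
    (fun x => psi_split Φ M hγ hγp ψ hψ ι.toRingHom hr x) f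

end

end Pool.Agent.Helper9.WS
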